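import Pool.Agent.Lib.MP_6b8987_gt.HFill

set_option autoImplicit false

namespace Pool.Agent.Results.MP_6b8987_gt.HolePacking

open Pool.Agent.Lib.MP_6b8987_gt MeasureTheory Set Filter

/-- In dimension at least four the holes of a bounded domain are wasted in every packing, and the
bound is the exact asymptotic value when the filled domain is complete Reinhardt. -/
theorem result (n : ℕ) (hn : 2 ≤ n) (X : Set (R2n n)) (hXo : IsOpen X) (hXne : X.Nonempty)
    (hXv : volume X ≠ ⊤) (hX : fill X = X) (D : Set (R2n n)) (hDo : IsOpen D)
    (hD : IsConnected D) (hb : Bornology.IsBounded D) :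
    (∀ k, packingNumber k D X ≤ volume D / volume (fill D)) ∧
      (IsCompleteReinhardt (fill D) → asymptoticPacking D X = volume D / volume (fill D)) :=
  ⟨packingNumber_le_fill hn hDo hD hb hXo hX,
    fun hR => asymptoticPacking_fill hn hDo hD hb hR hXo hXne hXv hX⟩

end Pool.Agent.Results.MP_6b8987_gt.HolePacking
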