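import Pool.Agent.Lib.MP_6b8987_gt.PMain

set_option autoImplicit false

namespace Pool.Agent.Results.MP_6b8987_gt.ReinhardtPacking

open Pool.Agent.Lib.MP_6b8987_gt MeasureTheory

/-- Bounded complete Reinhardt domains have asymptotic packing number one in every symplectic
manifold of finite volume. -/
theorem result (n : ℕ) (hn : 1 ≤ n) (D : Set (R2n n)) (hDo : IsOpen D) (hDne : D.Nonempty)
    (hDb : Bornology.IsBounded D) (hD : IsCompleteReinhardt D)
    (X : Type) [TopologicalSpace X] [T2Space X] [SecondCountableTopology X] [Nonempty X]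
    [ChartedSpace (R2n n) X] (hX : IsSympAtlas n X) [MeasurableSpace X] [BorelSpace X]
    (μ : Measure X) (hμ : IsSympVolume n μ) (hfin : μ Set.univ ≠ ⊤) :
    asymptoticPackingM μ D = 1 :=
  packing_eq_one hn hX hμ hfin hDo hDne (fits_reinhardt hDo hDb hD)

end Pool.Agent.Results.MP_6b8987_gt.ReinhardtPacking
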