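import Pool.Agent.Lib.MP_6b8987_gt.Main

set_option autoImplicit false

namespace Pool.Agent.Results.MP_6b8987_gt.ShellPacking

open Pool.Agent.Lib.MP_6b8987_gt Set Filter

/-- Spherical shells in dimension at least four have asymptotic packing number less than one. -/
theorem result (n : ℕ) (hn : 2 ≤ n) (a : ℝ) (ha : 0 < a) (ha1 : a < 1) (X : Set (R2n n))
    (hXo : IsOpen X) (hXc : Convex ℝ X) (_hXb : Bornology.IsBounded X) (_hXne : X.Nonempty) :
    (IsOpen (shell n a) ∧ IsConnected (shell n a) ∧ Bornology.IsBounded (shell n a)) ∧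
      (∀ k, packingNumber k (shell n a) X ≤ ENNReal.ofReal (1 - a ^ (2 * n))) ∧
      asymptoticPacking (shell n a) X < 1 := by
  refine ⟨⟨isOpen_Ioo.preimage continuous_norm, isConnected_shell hn ha ha1,
    (Metric.isBounded_ball (x := 0) (r := 1)).subset fun x hx => by simpa using hx.2⟩,
    packingNumber_le hn ha ha1 hXo hXc, ?_⟩
  refine lt_of_le_of_lt (liminf_le_of_frequently_le
    (Frequently.of_forall (packingNumber_le hn ha ha1 hXo hXc))) ?_
  rw [ENNReal.ofReal_lt_one]
  linarith [pow_pos ha (2 * n)]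

end Pool.Agent.Results.MP_6b8987_gt.ShellPacking
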