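import Pool.Agent.Lib.MP_6b8987_gt.PSlit

set_option autoImplicit false

namespace Pool.Agent.Results.MP_6b8987_gt.SlitToricPacking

open Pool.Agent.Lib.MP_6b8987_gt MeasureTheory

/-- Toric domains cut along one hypersurface have asymptotic packing number one in every
symplectic manifold of finite volume. -/
theorem result (m : ℕ) (Ω : Set (Fin (m + 1) → ℝ)) (hΩo : IsOpen Ω) (hΩne : Ω.Nonempty)
    (hΩb : Bornology.IsBounded Ω) (hΩp : ∀ b ∈ Ω, ∀ j, 0 < b j) (hΩf : volume (frontier Ω) = 0)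
    (X : Type) [TopologicalSpace X] [T2Space X] [SecondCountableTopology X] [Nonempty X]
    [ChartedSpace (R2n (m + 1)) X] (hX : IsSympAtlas (m + 1) X) [MeasurableSpace X] [BorelSpace X]
    (μ : Measure X) (hμ : IsSympVolume (m + 1) μ) (hfin : μ Set.univ ≠ ⊤) :
    asymptoticPackingM μ (toric Ω \ slit 0) = 1 :=
  packing_eq_one' (Nat.le_add_left 1 m) hX hμ hfin (isOpen_slitDom hΩo)
    (nonempty_slitDom hΩne hΩp) (fitsN_slitDom hΩo hΩb hΩne hΩp hΩf)

end Pool.Agent.Results.MP_6b8987_gt.SlitToricPacking
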